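import Pool.Agent.Helper72.HA.Names

/-!
# Project HA, module HA-3: evaluations with a rule
-/

set_option autoImplicit false
set_option linter.unusedSectionVars false

namespace Pool.Agent.Helper69.HA

open Set Pool.Agent.Helper33.HM

universe u

section Forcing

variable {I : Type u} [LinearOrder I] [WellFoundedLT I] {Ω : Type} [LinearOrder Ω]
  {e : Ω → ℕ → Ω → Prop} {code : I → Ω → Set (Cond I Ω)}

private theorem eval_CE_mono {p q : PC e code} (h : q ≤ p) {j : I} {δ : Ω} {o : Ω ⊕ ℕ} {b : Bool}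
    (h' : CE p j δ o b) : CE q j δ o b :=
  Cer.mono (fun _ _ _ _ hk => RO.mem_lower h hk) (fun k _ _ _ hx => (PC.le_data h k).c _ _ _ hx) h'

theorem Ext.refl (ρ : Ω → ℕ → ℕ) (j : I) (p : PC e code) : Ext ρ j p p :=
  ⟨le_rfl, fun _ _ => rfl, rfl, rfl, fun _ _ _ h => Or.inl h⟩

theorem Ext.trans {ρ : Ω → ℕ → ℕ} {j : I} {p q r : PC e code} (h : Ext ρ j r q)
    (h' : Ext ρ j q p) : Ext ρ j r p :=
  ⟨h.le.trans h'.le, fun k hk => (h.above k hk).trans (h'.above k hk), h.φ.trans h'.φ,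
    h.F.trans h'.F, fun δ m x hx => (h.c δ m x hx).elim (fun h1 => h'.c δ m x h1) Or.inr⟩

/-- Changes at the places less than `j` only are allowed by every rule at `j`. -/
theorem eval_ext_of_lt {ρ : Ω → ℕ → ℕ} {j : I} {p q : PC e code} (h : q ≤ p)
    (h' : ∀ k, j ≤ k → q.f k = p.f k) : Ext ρ j q p :=
  ⟨h, fun k hk => h' k hk.le, by rw [h' j le_rfl], by rw [h' j le_rfl],
    fun δ m x hx => Or.inl (by rw [← h' j le_rfl]; exact hx)⟩

/-- The value at the node with the index `j` and the level `δ` can be given. -/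
theorem Ext.add (ρ : Ω → ℕ → ℕ) (j : I) (p : PC e code) (δ : Ω) (m : ℕ)
    (h : (p.f j).c δ m = none) :
    ∃ q, Ext ρ j q p ∧ (q.f j).c δ m = some (ρ δ m) ∧ ∀ k, k ≠ j → q.f k = p.f k := by
  classical
  set x : Dat Ω := ⟨fun δ' m' => if δ' = δ ∧ m' = m then some (ρ δ m) else (p.f j).c δ' m',
    (p.f j).φ, (p.f j).F, by
      refine ((p.f j).finc.insert (δ, m)).subset ?_
      rintro ⟨δ', m'⟩ hz
      by_cases h' : δ' = δ ∧ m' = m
      · left
        exact Prod.ext h'.1 h'.2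
      · right
        simpa [if_neg h'] using hz, (p.f j).finφ, (p.f j).finF⟩ with hx
  have hxc : ∀ δ' m' a, x.c δ' m' = some a → (p.f j).c δ' m' = some a ∨ a = ρ δ' m' := by
    intro δ' m' a ha
    change (if δ' = δ ∧ m' = m then some (ρ δ m) else (p.f j).c δ' m') = some a at ha
    by_cases h' : δ' = δ ∧ m' = m
    · rw [if_pos h'] at ha
      right
      rw [h'.1, h'.2]
      exact (Option.some.inj ha).symm
    · rw [if_neg h'] at ha
      exact Or.inl ha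
  have hxc' : ∀ δ' m' a, (p.f j).c δ' m' = some a → x.c δ' m' = some a := by
    intro δ' m' a ha
    change (if δ' = δ ∧ m' = m then some (ρ δ m) else (p.f j).c δ' m') = some a
    by_cases h' : δ' = δ ∧ m' = m
    · rw [h'.1, h'.2, h] at ha
      exact absurd ha (by simp)
    · rw [if_neg h']
      exact ha
  have hj : (p.put j x).f j = x := by rw [PC.put_f, if_pos rfl]
  have hk : ∀ k, k ≠ j → (p.put j x).f k = p.f k := fun k hk => by rw [PC.put_f, if_neg hk]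
  refine ⟨p.put j x, ⟨?_, fun k hjk => hk k hjk.ne', by rw [hj], by rw [hj], ?_⟩, ?_, hk⟩
  · rw [PC.le_iff]
    intro i
    by_cases hi : i = j
    · subst hi
      rw [hj]
      refine ⟨⟨hxc', fun _ _ h => h, fun _ _ h => h⟩, fun ξ n δ' h1 h2 => ?_⟩
      have h3 : (p.f i).φ ξ = some n := h1
      rw [h2] at h3
      exact absurd h3 (by simp)
    · rw [hk i hi]
      refine ⟨⟨fun _ _ _ h => h, fun _ _ h => h, fun _ _ h => h⟩, fun ξ n δ' h1 h2 => ?_⟩
      rw [h2] at h1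
      exact absurd h1 (by simp)
  · intro δ' m' a ha
    rw [hj] at ha
    exact hxc δ' m' a ha
  · rw [hj]
    change (if δ = δ ∧ m = m then some (ρ δ m) else (p.f j).c δ m) = _
    rw [if_pos ⟨rfl, rfl⟩]

/-- The value at a node with index at most `j` can be given. -/
private theorem eval_add (ρ : Ω → ℕ → ℕ) {j k : I} (hk : k ≤ j) (p : PC e code) (δ : Ω) (m : ℕ) :
    ∃ q, Ext ρ j q p ∧ ∃ x, (q.f k).c δ m = some x := by
  cases hc : (p.f k).c δ m with
  | some x => exact ⟨p, Ext.refl _ _ _, x, hc⟩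
  | none =>
    rcases hk.eq_or_lt with rfl | hlt
    · obtain ⟨q, h1, h2, _⟩ := Ext.add ρ k p δ m hc
      exact ⟨q, h1, _, h2⟩
    · obtain ⟨q, h1, h2, h3⟩ := Ext.add (fun _ _ => 0) k p δ m hc
      exact ⟨q, eval_ext_of_lt h1.le fun k' hk' => h3 k' (hlt.trans_le hk').ne', _, h2⟩

/-- The first true value below `M`. -/
private theorem eval_first (he : EnumL (fun x y => x < y) e) (ρ : Ω → ℕ → ℕ) {j : I} {δ : Ω}
    {o : Ω ⊕ ℕ} (ih : ∀ γ, γ < δ → ∀ k, k ≤ j → ∀ p : PC e code, ∃ q, Ext ρ j q p ∧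
      ∃ b, CE q k γ o b) {k : I} (hk : k ≤ j) (p : PC e code) (M : ℕ) :
    ∃ q, Ext ρ j q p ∧ ((∀ m', m' < M → ∀ γ', e δ m' γ' → CE q k γ' o false) ∨
      ∃ m γ, m < M ∧ (∀ m', m' < m → ∀ γ', e δ m' γ' → CE q k γ' o false) ∧ e δ m γ ∧
        CE q k γ o true) := by
  induction M with
  | zero => exact ⟨p, Ext.refl _ _ _, Or.inl fun m' hm' => absurd hm' (Nat.not_lt_zero _)⟩
  | succ M ihM =>
    obtain ⟨q, hq, hc⟩ := ihM
    rcases hc with hc | ⟨m, γ, hm, h1, h2, h3⟩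
    · by_cases hex : ∃ γ, e δ M γ
      · obtain ⟨γ, hγ⟩ := hex
        obtain ⟨r, hr, b, hb⟩ := ih γ (he.below _ _ _ hγ) k hk q
        refine ⟨r, hr.trans hq, ?_⟩
        cases b with
        | true => exact Or.inr ⟨M, γ, Nat.lt_succ_self M,
            fun m' hm' γ' hγ' => eval_CE_mono hr.le (hc m' hm' γ' hγ'), hγ, hb⟩
        | false =>
          left
          intro m' hm' γ' hγ'
          rcases Nat.lt_succ_iff_lt_or_eq.1 hm' with h | rfl
          · exact eval_CE_mono hr.le (hc m' h γ' hγ')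
          · rw [he.func _ _ _ _ hγ' hγ]
            exact hb
      · refine ⟨q, hq, Or.inl fun m' hm' γ' hγ' => ?_⟩
        rcases Nat.lt_succ_iff_lt_or_eq.1 hm' with h | rfl
        · exact hc m' h γ' hγ'
        · exact absurd ⟨γ', hγ'⟩ hex
    · exact ⟨q, hq, Or.inr ⟨m, γ, hm.trans (Nat.lt_succ_self M), h1, h2, h3⟩⟩

theorem exists_eval [WellFoundedLT Ω] (he : EnumL (fun x y => x < y) e) (ρ : Ω → ℕ → ℕ) (j : I)
    (δ : Ω) (o : Ω ⊕ ℕ) (p : PC e code) : ∃ q, Ext ρ j q p ∧ ∃ b, CE q j δ o b := by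
  suffices H : ∀ δ : Ω, ∀ k, k ≤ j → ∀ p : PC e code, ∃ q, Ext ρ j q p ∧ ∃ b, CE q k δ o b from
    H δ j le_rfl p
  intro δ
  induction δ using WellFoundedLT.induction with
  | _ δ ih =>
  intro k hk p
  -- the decision of the node
  obtain ⟨q₀, hq₀, hq₀k, i, v, hv⟩ := Dv_dense p k δ
  have hi : i ≤ k := (mem_Dv.1 hv).1
  have hE₀ : Ext ρ j q₀ p := eval_ext_of_lt hq₀ fun k' hk' => hq₀k k' (hk.trans hk')
  have hij : i ≤ j := hi.trans hk
  cases o with
  | inl ξ =>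
    rcases lt_trichotomy ξ δ with hξ | rfl | hξ
    · obtain ⟨M, hM⟩ := he.onto _ _ hξ
      obtain ⟨q₁, hq₁, hc⟩ := eval_first he ρ ih hij q₀ M
      obtain ⟨m, γ, h1, h2, h3⟩ : ∃ m γ, (∀ m', m' < m → ∀ γ', e δ m' γ' →
          CE q₁ i γ' (.inl ξ) false) ∧ e δ m γ ∧ CE q₁ i γ (.inl ξ) true := by
        rcases hc with hc | ⟨m, γ, _, h1, h2, h3⟩
        · exact ⟨M, ξ, hc, hM, .self _ _⟩
        · exact ⟨m, γ, h1, h2, h3⟩
      obtain ⟨q₂, hq₂, x, hx⟩ := eval_add ρ hij q₁ δ m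
      refine ⟨q₂, hq₂.trans (hq₁.trans hE₀), _, .step k δ ξ i v m γ x hξ ?_ ?_ h2 ?_ hx⟩
      · exact RO.mem_lower (hq₂.le.trans hq₁.le) hv
      · exact fun m' hm' γ' hγ' => eval_CE_mono hq₂.le (h1 m' hm' γ' hγ')
      · exact eval_CE_mono hq₂.le h3
    · exact ⟨p, Ext.refl _ _ _, true, .self _ _⟩
    · exact ⟨p, Ext.refl _ _ _, false, .above _ _ _ hξ⟩
  | inr l =>
    obtain ⟨q₁, hq₁, hc⟩ := eval_first he ρ ih hij q₀ (l + 1)
    obtain ⟨q₂, hq₂, y, hy⟩ := eval_add ρ hij q₁ δ l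
    rcases hc with hc | ⟨m, γ, hm, h1, h2, h3⟩
    · refine ⟨q₂, hq₂.trans (hq₁.trans hE₀), _, .none k δ l i v y ?_ ?_ hy⟩
      · exact RO.mem_lower (hq₂.le.trans hq₁.le) hv
      · exact fun m' hm' γ' hγ' => eval_CE_mono hq₂.le (hc m' (Nat.lt_succ_of_le hm') γ' hγ')
    · obtain ⟨q₃, hq₃, x, hx⟩ := eval_add ρ hij q₂ δ m
      have hle : q₃ ≤ q₁ := hq₃.le.trans hq₂.le
      have hy' : (q₃.f i).c δ l = some y := (PC.le_data hq₃.le i).c _ _ _ hy
      have hv' : q₃ ∈ Dv k δ i v := RO.mem_lower (hle.trans hq₁.le) hv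
      have hE : Ext ρ j q₃ p := hq₃.trans (hq₂.trans (hq₁.trans hE₀))
      rcases le_or_gt (vF x) l with hl | hl
      · exact ⟨q₃, hE, _, .hit k δ l i v m γ x hv' (Nat.lt_succ_iff.1 hm)
          (fun m' hm' γ' hγ' => eval_CE_mono hle (h1 m' hm' γ' hγ')) h2 (eval_CE_mono hle h3) hx hl⟩
      · exact ⟨q₃, hE, _, .low k δ l i v m γ x y hv' (Nat.lt_succ_iff.1 hm)
          (fun m' hm' γ' hγ' => eval_CE_mono hle (h1 m' hm' γ' hγ')) h2 (eval_CE_mono hle h3) hx hl hy'⟩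

end Forcing

end Pool.Agent.Helper69.HA

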